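import Pool.Agent.Helper70.BI.HH.StHD
import Mathlib.Analysis.Complex.CoveringMap
import Mathlib.Topology.Homotopy.Lifting

/-!
# Project BI, stage 7 (H): module TDB (logarithms of functions on the interval and on the square)
-/

set_option autoImplicit false

open scoped Topology unitInterval
open Set

namespace Pool.Agent.Helper70.HH

/-- Logarithm on a retract of a real normed space. -/
theorem tdb_aux {E Y : Type} [NormedAddCommGroup E] [NormedSpace ℝ E] [TopologicalSpace Y]
    (r : C(E, Y)) (i : C(Y, E)) (hri : ∀ y, r (i y) = y) (c : C(Y, ℂ)) (hc : ∀ y, c y ≠ 0) :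
    ∃ ℓ : C(Y, ℂ), ∀ y, Complex.exp (ℓ y) = c y := by
  have he : Complex.exp (Complex.log ((c.comp r) (0 : E))) = (c.comp r) (0 : E) :=
    Complex.exp_log (hc _)
  obtain ⟨F, ⟨-, hF⟩, -⟩ := Complex.isCoveringMapOn_exp.existsUnique_continuousMap_lifts
    (c.comp r) he (fun x => hc _)
  refine ⟨F.comp i, fun y => ?_⟩
  have h := congrFun hF (i y)
  simp only [Function.comp_apply, ContinuousMap.comp_apply] at h
  rw [ContinuousMap.comp_apply, h, hri]

theorem m_TDB : StTDB := by
  have hp : ∀ t : I, projIcc (0 : ℝ) 1 zero_le_one (t : ℝ) = t := fun t => projIcc_val _ t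
  constructor
  · exact fun c hc => tdb_aux (E := ℝ) ⟨projIcc (0 : ℝ) 1 zero_le_one, continuous_projIcc⟩
      ⟨fun t : I => (t : ℝ), continuous_subtype_val⟩ (fun t => hp t) c hc
  · exact fun c hc => tdb_aux (E := ℝ × ℝ)
      ⟨fun z => (projIcc (0 : ℝ) 1 zero_le_one z.1, projIcc (0 : ℝ) 1 zero_le_one z.2),
        (continuous_projIcc.comp continuous_fst).prodMk (continuous_projIcc.comp continuous_snd)⟩
      ⟨fun z : I × I => ((z.1 : ℝ), (z.2 : ℝ)),
        (continuous_subtype_val.comp continuous_fst).prodMk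
          (continuous_subtype_val.comp continuous_snd)⟩
      (fun z => Prod.ext (hp z.1) (hp z.2)) c hc

end Pool.Agent.Helper70.HH
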